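import Pool.Agent.Helper39.CR.GoalsT

/-!
Project CAR (MP_d97caa_an), stage 3, packet CAR3-TBACK.
-/

set_option autoImplicit false

open scoped ComplexOrder ZeroAtInfty
open TopologicalSpace

namespace Pool.Agent.Helper5.CR

open Pool.Agent.Helper34.CAR Pool.Agent.Helper39.CR

theorem tback (hTGR : S_TGR) (hTTOW : S_TTOW) : S_TBACK := by
  intro T B _ _ θ s L _ _ ι hlim γ Z n hfix hB i y
  have hG : ∀ (i : ZMod 2) (k : ℕ) (y : T.F i (Gd B (wz s n k))), y = 0 := by
    intro i k y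
    exact (hTGR T i B (s.S k) (ZMod n) (wz s n k)).2.2 y fun x => hB i _
  obtain ⟨u, -, hinj, hcomp, hdense⟩ := hTTOW B θ s L ι hlim γ Z n hfix
  obtain ⟨-, d, -, hd⟩ := T.milnor i (Fix γ Z) (fun k => Gd B (wz s n k)) (kd s n) u hinj hcomp
    hdense
  obtain ⟨z, hz⟩ := (hd y).1 fun k => hG i k _
  have h0 : z = 0 := by
    funext k
    exact hG (i + 1) k (z k)
  rw [← hz, h0, map_zero]

end Pool.Agent.Helper5.CR
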